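import Pool.Agent.Helper57.SJ.Stmts2

/-!
# Row GWK: no zero is near almost all intervals, exceptional set `T H^{-B}` (after row GW)
-/

set_option autoImplicit false

namespace Pool.Agent.Helper40.SJ

open MeasureTheory Set Filter Topology
open Pool.Agent.Helper57.QZ (pt Good)
open Pool.Agent.Helper57.SJ

theorem gwk_bad {ε T t : ℝ} (hT : 1 ≤ T) (h : ¬ Good ε T t) :
    (∀ s ∈ Icc (t - 1) t, ¬ Good ε T s) ∨ (∀ s ∈ Icc t (t + 1), ¬ Good ε T s) := by
  unfold Good at h
  simp only [not_forall] at h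
  obtain ⟨σ, hσ, τ, hτ, hz⟩ := h
  have hL : 0 ≤ Real.log T := Real.log_nonneg hT
  rw [abs_le] at hτ
  rcases le_total τ t with h1 | h1
  · left
    intro s hs hG
    refine hz (hG σ hσ τ ?_)
    rw [abs_le]
    constructor <;> linarith [hs.1, hs.2, hτ.1, hτ.2]
  · right
    intro s hs hG
    refine hz (hG σ hσ τ ?_)
    rw [abs_le]
    constructor <;> linarith [hs.1, hs.2, hτ.1, hτ.2]

theorem gwk_one {f : ℝ → ℝ} (hf : Integrable f) (hf0 : ∀ t, 0 ≤ f t) {a c d : ℝ} (h1 : c ≤ a)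
    (h2 : a + 1 ≤ d) (h3 : ∀ s ∈ Icc a (a + 1), f s = 1) : 1 ≤ ∫ t in c..d, f t := by
  have h4 : ∫ t in a..(a + 1), f t = 1 := by
    have h5 : ∫ t in a..(a + 1), f t = ∫ _t in a..(a + 1), (1 : ℝ) := by
      apply intervalIntegral.integral_congr
      intro s hs
      rw [uIcc_of_le (by linarith)] at hs
      exact h3 s hs
    rw [h5, intervalIntegral.integral_const]
    simp
  calc (1 : ℝ) = ∫ t in a..(a + 1), f t := h4.symm
    _ ≤ ∫ t in c..d, f t := by
      refine intervalIntegral.integral_mono_interval h1 (by linarith) h2 ?_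
        hf.intervalIntegrable
      exact Filter.Eventually.of_forall fun t => hf0 t

theorem st_GWK (h1 : Pool.Agent.Helper57.QZ.ST_XR) (h2 : ST_MK2) : ST_GWK := by
  intro ε hε B hB
  obtain ⟨c1, T₀, hc0, hc1, hT₀, hX⟩ := h1 ε hε
  have hB1 : 0 < 4 * (B + 1) := by linarith
  have hc2 : 0 < c1 / (4 * (B + 1)) := div_pos hc0 hB1
  have hcB : c1 / (4 * (B + 1)) * (B + 1) = c1 / 4 := by
    have : B + 1 ≠ 0 := by linarith
    field_simp
  have hc3 : c1 / (4 * (B + 1)) ≤ c1 / 4 := by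
    rw [← hcB]
    nlinarith
  refine ⟨c1 / (4 * (B + 1)), ⟨hc2, by linarith⟩, ?_⟩
  refine ⟨max (max T₀ 16) (9 ^ (2 / c1)), ?_, ?_⟩
  · exact le_trans hT₀ (le_trans (le_max_left _ _) (le_max_left _ _))
  intro T hT H hH1 hHT
  have hTT₀ : T₀ ≤ T := le_trans (le_trans (le_max_left _ _) (le_max_left _ _)) hT
  have hT16 : 16 ≤ T := le_trans (le_trans (le_max_right _ _) (le_max_left _ _)) hT
  have hTκ : (9 : ℝ) ^ (2 / c1) ≤ T := le_trans (le_max_right _ _) hT
  have hT1 : 1 ≤ T := by linarith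
  have hT0 : 0 < T := by linarith
  obtain ⟨E0, hE0, hE0v, hE0G⟩ := hX T hTT₀
  obtain ⟨S, hS⟩ : ∃ S : Set ℝ, S = toMeasurable volume E0 := ⟨_, rfl⟩
  have hSm : MeasurableSet S := by
    rw [hS]
    exact measurableSet_toMeasurable _ _
  have hSv : volume S = volume E0 := by
    rw [hS, measure_toMeasurable]
  have hSf : volume S ≠ ⊤ := by
    rw [hSv]
    exact ne_top_of_le_ne_top (by simp) (measure_mono hE0)
  have hSr : volume.real S ≤ T ^ (1 - c1) := by
    rw [Measure.real, hSv]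
    exact hE0v
  obtain ⟨f, hf⟩ : ∃ f : ℝ → ℝ, f = S.indicator (fun _ => (1 : ℝ)) := ⟨_, rfl⟩
  have hfi : Integrable f := by
    rw [hf, integrable_indicator_iff hSm]
    exact integrableOn_const hSf
  have hf0 : ∀ t, 0 ≤ f t := by
    intro t
    rw [hf]
    exact indicator_nonneg (fun _ _ => zero_le_one) t
  have hf1 : ∀ t, t ∈ E0 → f t = 1 := by
    intro t ht
    rw [hf, indicator_of_mem]
    rw [hS]
    exact subset_toMeasurable _ _ ht
  have hfint : ∫ t in T..(2 * T), f t ≤ T ^ (1 - c1) := by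
    rw [intervalIntegral.integral_of_le (by linarith)]
    refine (setIntegral_le_integral hfi (Filter.Eventually.of_forall hf0)).trans ?_
    rw [hf, integral_indicator_const _ hSm]
    simpa using hSr
  have hTc1 : 1 ≤ T ^ (c1 / (4 * (B + 1))) := Real.one_le_rpow hT1 hc2.le
  have hTc2 : 1 ≤ T ^ (1 - c1) := Real.one_le_rpow hT1 (by linarith)
  have hHs : H ≤ Real.sqrt T := by
    refine hHT.trans ?_
    rw [Real.sqrt_eq_rpow]
    exact Real.rpow_le_rpow_of_exponent_le hT1 (by linarith)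
  have hH2 : H + 2 ≤ T := by
    have h4 : 4 ≤ Real.sqrt T := by
      apply Real.le_sqrt_of_sq_le
      linarith
    have h5 := Real.mul_self_sqrt hT0.le
    nlinarith
  obtain ⟨E, hE, hEv, hEu⟩ := h2 f H (1 / 2) T (by linarith) (by norm_num) hH2 hfi.integrableOn hf0
  refine ⟨E, hE, ?_, ?_⟩
  · have h3 : 9 ≤ T ^ (c1 / 2) := by
      calc (9 : ℝ) = ((9 : ℝ) ^ (2 / c1)) ^ (c1 / 2) := by
            rw [← Real.rpow_mul (by norm_num)]
            have h5 : 2 / c1 * (c1 / 2) = 1 := by field_simp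
            rw [h5, Real.rpow_one]
        _ ≤ T ^ (c1 / 2) := Real.rpow_le_rpow (by positivity) hTκ (by linarith)
    have h6 : 1 + (∫ t in T..(2 * T), f t) / (1 / 2) ≤ 3 * T ^ (1 - c1) := by
      have : (∫ t in T..(2 * T), f t) / (1 / 2) = 2 * ∫ t in T..(2 * T), f t := by ring
      rw [this]
      linarith
    have h7 : H + 2 ≤ 3 * T ^ (c1 / (4 * (B + 1))) := by linarith
    have h9 : 0 ≤ 1 + (∫ t in T..(2 * T), f t) / (1 / 2) := by
      have : 0 ≤ ∫ t in T..(2 * T), f t :=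
        intervalIntegral.integral_nonneg (by linarith) fun t _ => hf0 t
      positivity
    have h10 : 0 ≤ T ^ (c1 / (4 * (B + 1))) * T ^ (1 - c1) := by positivity
    have h12 : T ^ (c1 / 2) * (T ^ (c1 / (4 * (B + 1))) * T ^ (1 - c1)) =
        T ^ (c1 / (4 * (B + 1)) + 1 - c1 / 2) := by
      rw [← Real.rpow_add hT0, ← Real.rpow_add hT0]
      congr 1
      ring
    have h13 : T ^ (c1 / (4 * (B + 1)) + 1 - c1 / 2) ≤ T ^ (1 - c1 / (4 * (B + 1)) * B) :=
      Real.rpow_le_rpow_of_exponent_le hT1 (by nlinarith)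
    have h14 : T ^ (1 - c1 / (4 * (B + 1)) * B) =
        T * (T ^ (c1 / (4 * (B + 1)))) ^ (-B) := by
      rw [← Real.rpow_mul hT0.le]
      nth_rewrite 2 [← Real.rpow_one T]
      rw [← Real.rpow_add hT0]
      congr 1
      ring
    have h15 : (T ^ (c1 / (4 * (B + 1)))) ^ (-B) ≤ H ^ (-B) :=
      Real.rpow_le_rpow_of_nonpos (by linarith) hHT (by linarith)
    calc volume.real E ≤ (H + 2) * (1 + (∫ t in T..(2 * T), f t) / (1 / 2)) := hEv
      _ ≤ (3 * T ^ (c1 / (4 * (B + 1)))) * (3 * T ^ (1 - c1)) :=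
          mul_le_mul h7 h6 h9 (by positivity)
      _ = 9 * (T ^ (c1 / (4 * (B + 1))) * T ^ (1 - c1)) := by ring
      _ ≤ T ^ (c1 / 2) * (T ^ (c1 / (4 * (B + 1))) * T ^ (1 - c1)) :=
          mul_le_mul_of_nonneg_right h3 h10
      _ ≤ T * (T ^ (c1 / (4 * (B + 1)))) ^ (-B) := by rw [h12, ← h14]; exact h13
      _ ≤ T * H ^ (-B) := mul_le_mul_of_nonneg_left h15 hT0.le
  · intro u hu huE
    obtain ⟨g1, g2, g3⟩ := hEu u hu huE
    refine ⟨g1, g2, ?_⟩
    intro t ht
    by_contra hbad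
    have hmem : ∀ s, T ≤ s → s ≤ 2 * T → ¬ Good ε T s → f s = 1 := by
      intro s hs1 hs2 hs3
      apply hf1
      by_contra hs4
      exact hs3 (hE0G s ⟨hs1, hs2⟩ hs4)
    rcases gwk_bad hT1 hbad with hb | hb
    · have h3 : 1 ≤ ∫ t in (u - 1)..(u + H + 1), f t := by
        refine gwk_one hfi hf0 (a := t - 1) (by linarith [ht.1]) (by linarith [ht.2]) ?_
        intro s hs
        have hs' : s ∈ Icc (t - 1) t := ⟨hs.1, by linarith [hs.2]⟩
        exact hmem s (by linarith [hs'.1, ht.1]) (by linarith [hs'.2, ht.2]) (hb s hs')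
      linarith
    · have h3 : 1 ≤ ∫ t in (u - 1)..(u + H + 1), f t := by
        refine gwk_one hfi hf0 (a := t) (by linarith [ht.1]) (by linarith [ht.2]) ?_
        intro s hs
        exact hmem s (by linarith [hs.1, ht.1]) (by linarith [hs.2, ht.2]) (hb s hs)
      linarith

end Pool.Agent.Helper40.SJ
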