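import Pool.Agent.Helper57.SJ.Stmts

set_option autoImplicit false

namespace Pool.Agent.Helper40.SJ

theorem sb_mix (a b : ℝ) (ha : 0 ≤ a) (hb : 0 ≤ b) (m : ℕ) :
    (a ^ 2) ^ m * (a * b) ≤ (a ^ 2) ^ (m + 1) + (b ^ 2) ^ (m + 1) := by
  rcases le_total b a with h | h
  · have h1 : (a ^ 2) ^ m * (a * b) ≤ (a ^ 2) ^ m * (a * a) :=
      mul_le_mul_of_nonneg_left (mul_le_mul_of_nonneg_left h ha) (by positivity)
    have h2 : (a ^ 2) ^ m * (a * a) = (a ^ 2) ^ (m + 1) := by ring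
    have h3 : 0 ≤ (b ^ 2) ^ (m + 1) := by positivity
    linarith
  · have h0 : (a ^ 2) ^ m ≤ (b ^ 2) ^ m :=
      pow_le_pow_left₀ (by positivity) (pow_le_pow_left₀ ha h 2) m
    have h1 : (a ^ 2) ^ m * (a * b) ≤ (b ^ 2) ^ m * (b * b) :=
      mul_le_mul h0 (mul_le_mul_of_nonneg_right h hb) (by positivity) (by positivity)
    have h2 : (b ^ 2) ^ m * (b * b) = (b ^ 2) ^ (m + 1) := by ring
    have h3 : 0 ≤ (a ^ 2) ^ (m + 1) := by positivity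
    linarith

theorem st_SB : Pool.Agent.Helper57.SJ.ST_SB := by
  intro f f' k hk hf hf' t
  obtain ⟨m, rfl⟩ : ∃ m, k = m + 1 := ⟨k - 1, by omega⟩
  have cf : Continuous f := continuous_iff_continuousAt.mpr fun s => (hf s).continuousAt
  have e0 : ∀ s, ‖f s‖ ^ (2 * (m + 1)) = (‖f s‖ ^ 2) ^ (m + 1) := fun s => pow_mul _ _ _
  have e0' : ∀ s, ‖f' s‖ ^ (2 * (m + 1)) = (‖f' s‖ ^ 2) ^ (m + 1) := fun s => pow_mul _ _ _
  simp only [e0, e0']
  have hg : ∀ s, HasDerivAt (fun s => (‖f s‖ ^ 2) ^ (m + 1))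
      (((m + 1 : ℕ) : ℝ) * (‖f s‖ ^ 2) ^ m * (2 * inner ℝ (f s) (f' s))) s := by
    intro s
    have h1 := (hf s).norm_sq
    simpa using h1.fun_pow (m + 1)
  have hd : ∀ s ∈ Set.uIcc t (t + 1), HasDerivAt (fun s => (t + 1 - s) * (‖f s‖ ^ 2) ^ (m + 1))
      (-(‖f s‖ ^ 2) ^ (m + 1) + (t + 1 - s) *
        (((m + 1 : ℕ) : ℝ) * (‖f s‖ ^ 2) ^ m * (2 * inner ℝ (f s) (f' s)))) s := by
    intro s _
    have h1 : HasDerivAt (fun s : ℝ => t + 1 - s) (-1) s := by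
      simpa using (hasDerivAt_id s).const_sub (t + 1)
    refine (h1.mul (hg s)).congr_deriv ?_
    ring
  have hc : Continuous fun s => -(‖f s‖ ^ 2) ^ (m + 1) + (t + 1 - s) *
        (((m + 1 : ℕ) : ℝ) * (‖f s‖ ^ 2) ^ m * (2 * inner ℝ (f s) (f' s))) := by
    have := cf.inner (𝕜 := ℝ) hf'
    fun_prop
  have hi := intervalIntegral.integral_eq_sub_of_hasDerivAt hd (hc.intervalIntegrable _ _)
  have h0 : (‖f t‖ ^ 2) ^ (m + 1) = ∫ s in t..(t + 1), -(-(‖f s‖ ^ 2) ^ (m + 1) + (t + 1 - s) *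
        (((m + 1 : ℕ) : ℝ) * (‖f s‖ ^ 2) ^ m * (2 * inner ℝ (f s) (f' s)))) := by
    rw [intervalIntegral.integral_neg, hi]
    simp
  rw [h0, ← intervalIntegral.integral_const_mul]
  refine intervalIntegral.integral_mono_on (by linarith) ?_ ?_ ?_
  · exact (hc.neg).intervalIntegrable _ _
  · exact Continuous.intervalIntegrable (by fun_prop) _ _
  · intro s hs
    have hin : |inner ℝ (f s) (f' s)| ≤ ‖f s‖ * ‖f' s‖ := abs_real_inner_le_norm _ _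
    have hP : 0 ≤ ((m + 1 : ℕ) : ℝ) * (‖f s‖ ^ 2) ^ m := by positivity
    have hmix := sb_mix ‖f s‖ ‖f' s‖ (norm_nonneg _) (norm_nonneg _) m
    have hb : -((t + 1 - s) * inner ℝ (f s) (f' s)) ≤ ‖f s‖ * ‖f' s‖ := by
      have h5 : |(t + 1 - s) * inner ℝ (f s) (f' s)| ≤ |inner ℝ (f s) (f' s)| := by
        rw [abs_mul, abs_of_nonneg (by linarith [hs.2])]
        have : t + 1 - s ≤ 1 := by linarith [hs.1]
        nlinarith [abs_nonneg (inner ℝ (f s) (f' s))]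
      linarith [neg_abs_le ((t + 1 - s) * inner ℝ (f s) (f' s))]
    have h6 := mul_le_mul_of_nonneg_left hb hP
    have h7 : ((m + 1 : ℕ) : ℝ) * (‖f s‖ ^ 2) ^ m * (‖f s‖ * ‖f' s‖) ≤
        ((m + 1 : ℕ) : ℝ) * ((‖f s‖ ^ 2) ^ (m + 1) + (‖f' s‖ ^ 2) ^ (m + 1)) := by
      rw [mul_assoc]
      exact mul_le_mul_of_nonneg_left hmix (by positivity)
    have h8 : 0 ≤ (‖f' s‖ ^ 2) ^ (m + 1) := by positivity
    push_cast at *
    nlinarith [h6, h7, h8]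

end Pool.Agent.Helper40.SJ
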